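import Mathlib
import Pool.Agent.W844.GP.Defs

/-!
# Coarse graining: `S_BK → S_U3`
-/

set_option autoImplicit false
set_option maxHeartbeats 400000

open Finset MeasureTheory ProbabilityTheory Filter Topology
open scoped ENNReal

namespace Pool.Agent.W978.GP.U3

open Pool.Agent.W844.VG (V stp nm)
open Pool.Agent.W844.GP

variable {d : ℕ}

/-! ### translation invariance -/

lemma map_sh (ν : Measure ℝ) [IsProbabilityMeasure ν] (a : V d) :
    (law ν d).map (sh a) = law ν d := by
  have h := Measure.infinitePi_map_piCongrLeft (μ := fun _ : V d => ν) (Equiv.subRight a)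
  have e : (sh a : (V d → ℝ) → V d → ℝ) =
      ⇑(MeasurableEquiv.piCongrLeft (fun _ : V d => ℝ) (Equiv.subRight a)) := by
    funext w x
    have h1 := Equiv.piCongrLeft_apply_apply (fun _ : V d => ℝ) (Equiv.subRight a) w (x + a)
    have h2 : (Equiv.subRight a) (x + a) = x := by simp
    rw [h2] at h1
    rw [MeasurableEquiv.coe_piCongrLeft, h1]
    rfl
  unfold law
  rw [e]
  exact h

lemma measurable_sh (a : V d) : Measurable (sh a : (V d → ℝ) → V d → ℝ) :=
  measurable_pi_lambda _ fun x => measurable_pi_apply (x + a)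

lemma measurable_wt (l : List (V d)) : Measurable fun w : V d → ℝ => wt w l := by
  induction l with
  | nil => exact measurable_const
  | cons x l ih =>
    have : (fun w : V d → ℝ => wt w (x :: l)) = fun w => w x + wt w l := by
      funext w; simp [wt]
    rw [this]
    exact (measurable_pi_apply x).add ih

lemma meas_Big (a : V d) (R : ℕ) (c : ℝ) : MeasurableSet {w : V d → ℝ | Big w a R c} := by
  have : {w : V d → ℝ | Big w a R c} = ⋃ l : List (V d), ⋃ (_ : IsP l ∧ ∀ z ∈ l, z ∈ Cube a R),
      {w : V d → ℝ | c ≤ wt w l} := by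
    ext w
    simp only [Set.mem_ofPred_eq, Set.mem_iUnion, Big, exists_prop, and_assoc]
  rw [this]
  refine MeasurableSet.iUnion fun l => MeasurableSet.iUnion fun _ => ?_
  exact measurableSet_le measurable_const (measurable_wt l)

lemma adj_sub {x y a : V d} : adj (x - a) (y - a) ↔ adj x y := by
  unfold adj
  simp

lemma Big_sh {w : V d → ℝ} {a : V d} {R : ℕ} {c : ℝ} (h : Big w a R c) :
    Big (sh a w) 0 R c := by
  obtain ⟨l, hl, hc, hw⟩ := h
  refine ⟨l.map fun x => x - a, ⟨?_, ?_⟩, ?_, ?_⟩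
  · rw [List.isChain_map]
    refine List.IsChain.imp ?_ hl.1
    intro x y hxy
    exact adj_sub.2 hxy
  · exact hl.2.map (sub_left_injective)
  · intro z hz
    obtain ⟨x, hx, rfl⟩ := List.mem_map.1 hz
    intro j
    have h1 := hc x hx j
    simp only [Pi.sub_apply, Pi.zero_apply]
    constructor <;> linarith [h1.1, h1.2]
  · refine hw.trans (le_of_eq ?_)
    unfold wt
    rw [List.map_map]
    congr 1
    refine List.map_congr_left fun x _ => ?_
    simp [sh]

lemma law_Big (ν : Measure ℝ) [IsProbabilityMeasure ν] (a : V d) (R : ℕ) (c : ℝ) :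
    law ν d {w | Big w a R c} ≤ law ν d {w | Big w 0 R c} := by
  calc law ν d {w | Big w a R c} ≤ law ν d (sh a ⁻¹' {w | Big w 0 R c}) :=
        measure_mono fun w hw => Big_sh hw
    _ = (law ν d).map (sh a) {w | Big w 0 R c} :=
        (Measure.map_apply (measurable_sh a) (meas_Big 0 R c)).symm
    _ = _ := by rw [map_sh]

/-! ### positions and chunks -/

/-- positions -/
def X (l : List (V d)) (i : ℕ) : V d := (0 :: l).getD i 0

lemma X_zero (l : List (V d)) : X l 0 = 0 := rfl

lemma X_succ {l : List (V d)} {i : ℕ} (hi : i < l.length) : X l (i + 1) = l[i] := by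
  unfold X
  rw [List.getD_eq_getElem _ _ (by simpa using hi)]
  rfl

lemma X_adj {l : List (V d)} (h : IsP (0 :: l)) {i : ℕ} (hi : i < l.length) :
    adj (X l i) (X l (i + 1)) := by
  have h1 := List.isChain_iff_getElem.1 h.1 i (by simpa using hi)
  unfold X
  rw [List.getD_eq_getElem _ _ (by simp; omega), List.getD_eq_getElem _ _ (by simpa using hi)]
  exact h1

lemma adj_le {x y : V d} (h : adj x y) (j : Fin d) : |y j - x j| ≤ 1 := by
  unfold adj at h
  rw [← h]
  exact Finset.single_le_sum (f := fun j => |y j - x j|) (fun _ _ => abs_nonneg _) (mem_univ j)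

lemma X_dist {l : List (V d)} (h : IsP (0 :: l)) (c : Fin d) (i m : ℕ) (hm : i + m ≤ l.length) :
    |X l (i + m) c - X l i c| ≤ m := by
  induction m with
  | zero => simp
  | succ m ih =>
    have h1 := ih (by omega)
    have h2 := adj_le (X_adj h (show i + m < l.length by omega)) c
    rw [abs_le] at h1 h2 ⊢
    push_cast
    rw [← add_assoc]
    constructor <;> linarith [h1.1, h1.2, h2.1, h2.2]

/-- the `j`-th chunk of `R` vertices -/
def ch (R : ℕ) (l : List (V d)) (j : ℕ) : List (V d) := (l.drop (j * R)).take R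

lemma mem_ch {R : ℕ} {l : List (V d)} {j : ℕ} {x : V d} (hx : x ∈ ch R l j) :
    ∃ i, j * R ≤ i ∧ i < j * R + R ∧ ∃ hi : i < l.length, l[i] = x := by
  unfold ch at hx
  obtain ⟨i, hi, hx⟩ := List.mem_take_iff_getElem.1 hx
  rw [List.getElem_drop] at hx
  rw [List.length_drop] at hi
  exact ⟨j * R + i, by omega, by omega, by omega, hx⟩

lemma wt_ch (w : V d → ℝ) (R : ℕ) : ∀ (k : ℕ) (l : List (V d)), l.length ≤ k * R →
    ∑ j ∈ range k, wt w (ch R l j) = wt w l := by
  intro k
  induction k with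
  | zero =>
    intro l hl
    have : l = [] := List.length_eq_zero_iff.1 (by omega)
    subst this
    simp [wt]
  | succ k ih =>
    intro l hl
    rw [Finset.sum_range_succ']
    have h1 : ∀ j, ch R l (j + 1) = ch R (l.drop R) j := by
      intro j
      unfold ch
      rw [List.drop_drop]
      congr 2
      ring
    simp_rw [h1]
    rw [ih (l.drop R) (by rw [List.length_drop]; rw [Nat.succ_mul] at hl; omega)]
    have h2 : ch R l 0 = l.take R := by simp [ch]
    rw [h2]
    unfold wt
    rw [add_comm, ← List.sum_append, ← List.map_append, List.take_append_drop]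

lemma ch_length (R : ℕ) (l : List (V d)) (j : ℕ) : (ch R l j).length ≤ R := by
  unfold ch
  rw [List.length_take]
  exact min_le_left _ _

lemma IsP_ch {R : ℕ} {l : List (V d)} (h : IsP (0 :: l)) (j : ℕ) : IsP (ch R l j) := by
  have h1 : l.IsChain adj := List.IsChain.of_cons h.1
  have h2 : l.Nodup := (List.nodup_cons.1 h.2).2
  exact ⟨(h1.drop _).take _, h2.sublist ((List.take_sublist _ _).trans (List.drop_sublist _ _))⟩

lemma ch_disj {R : ℕ} {l : List (V d)} (h : l.Nodup) {j j' : ℕ} (hj : j ≠ j') {x : V d}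
    (hx : x ∈ ch R l j) (hx' : x ∈ ch R l j') : False := by
  obtain ⟨i, h1, h2, hi, h3⟩ := mem_ch hx
  obtain ⟨i', h1', h2', hi', h3'⟩ := mem_ch hx'
  have h4 : l[i] = l[i'] := h3.trans h3'.symm
  have h5 := (h.getElem_inj_iff).1 h4
  subst h5
  rcases Nat.lt_or_gt_of_ne hj with h6 | h6
  · have : (j + 1) * R ≤ j' * R := Nat.mul_le_mul_right _ h6
    rw [Nat.succ_mul] at this
    omega
  · have : (j' + 1) * R ≤ j * R := Nat.mul_le_mul_right _ h6
    rw [Nat.succ_mul] at this
    omega

lemma wt_le {w : V d → ℝ} {T : ℝ} (hT : 0 ≤ T) (hw : ∀ x, w x ≤ T) {R : ℕ} :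
    ∀ l : List (V d), l.length ≤ R → wt w l ≤ R * T := by
  intro l hl
  have h1 : wt w l ≤ l.length * T := by
    clear hl
    induction l with
    | nil => simp [wt]
    | cons x l ih =>
      have : wt w (x :: l) = w x + wt w l := by simp [wt]
      rw [this, List.length_cons]
      push_cast
      linarith [hw x]
  refine h1.trans ?_
  have : (l.length : ℝ) ≤ R := by exact_mod_cast hl
  exact mul_le_mul_of_nonneg_right this hT

/-- coarse positions -/
def Z (R : ℕ) (l : List (V d)) (j : ℕ) : V d := fun c => X l (j * R) c / (R : ℤ)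

lemma Z_zero (R : ℕ) (l : List (V d)) : Z R l 0 = 0 := by
  funext c
  simp [Z, X_zero]

lemma Z_step {R : ℕ} (hR : 1 ≤ R) {l : List (V d)} (h : IsP (0 :: l)) {j : ℕ}
    (hj : (j + 1) * R ≤ l.length) (c : Fin d) : |Z R l (j + 1) c - Z R l j c| ≤ 1 := by
  have h1 := X_dist h c (j * R) R (by rw [← Nat.succ_mul]; exact hj)
  have e : (j + 1) * R = j * R + R := Nat.succ_mul j R
  unfold Z
  rw [e]
  have hR' : (0 : ℤ) < R := by exact_mod_cast hR
  rw [abs_le] at h1 ⊢
  have h2 : X l (j * R + R) c ≤ X l (j * R) c + 1 * (R : ℤ) := by linarith [h1.2]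
  have h3 : X l (j * R) c ≤ X l (j * R + R) c + 1 * (R : ℤ) := by linarith [h1.1]
  have h4 := Int.ediv_le_ediv hR' h2
  have h5 := Int.ediv_le_ediv hR' h3
  rw [Int.add_mul_ediv_right _ _ hR'.ne'] at h4 h5
  constructor <;> linarith

lemma ch_cube {R : ℕ} (hR : 1 ≤ R) {l : List (V d)} (h : IsP (0 :: l)) {j : ℕ} {x : V d}
    (hx : x ∈ ch R l j) : x ∈ Cube (fun c => (R : ℤ) * (Z R l j c - 1)) (3 * R) := by
  obtain ⟨i, h1, h2, hi, h3⟩ := mem_ch hx
  intro c
  have h4 : x = X l (j * R + (i + 1 - j * R)) := by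
    rw [show j * R + (i + 1 - j * R) = i + 1 by omega, X_succ hi, h3]
  have h5 := X_dist h c (j * R) (i + 1 - j * R) (by omega)
  rw [← h4] at h5
  have h6 : ((i + 1 - j * R : ℕ) : ℤ) ≤ R := by exact_mod_cast (by omega : i + 1 - j * R ≤ R)
  have hR' : (0 : ℤ) < R := by exact_mod_cast hR
  have h7 := Int.mul_ediv_add_emod (X l (j * R) c) R
  have h8 := Int.emod_nonneg (X l (j * R) c) hR'.ne'
  have h9 := Int.emod_lt_of_pos (X l (j * R) c) hR'
  have e : Z R l j c = X l (j * R) c / (R : ℤ) := rfl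
  rw [abs_le] at h5
  show (R : ℤ) * (Z R l j c - 1) ≤ x c ∧ x c < (R : ℤ) * (Z R l j c - 1) + ((3 * R : ℕ) : ℤ)
  rw [e, mul_sub, mul_one]
  push_cast
  constructor <;> linarith [h5.1, h5.2]

/-! ### coarse walks -/

/-- the coarse walk with increments `s - 1` -/
def zz {k : ℕ} (s : Fin k → Fin d → Fin 3) (j : ℕ) : V d :=
  ∑ i : Fin k, if (i : ℕ) < j then (fun c => ((s i c : ℕ) : ℤ) - 1) else 0

lemma zz_exists {k : ℕ} (W : ℕ → V d) (h0 : W 0 = 0)
    (h : ∀ j, j + 1 < k → ∀ c, |W (j + 1) c - W j c| ≤ 1) :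
    ∃ s : Fin k → Fin d → Fin 3, ∀ j < k, zz s j = W j := by
  refine ⟨fun i c => if h : |W (i + 1) c - W i c| ≤ 1 then
    ⟨(W (i + 1) c - W i c + 1).toNat, by rw [abs_le] at h; omega⟩ else 0, ?_⟩
  intro j
  induction j with
  | zero => intro _; rw [h0]; simp [zz]
  | succ j ih =>
    intro hj
    have h1 := ih (by omega)
    unfold zz at h1 ⊢
    have e : ∀ (f : Fin k → V d), ∑ i : Fin k, (if (i : ℕ) < j + 1 then f i else 0) =
        (∑ i : Fin k, if (i : ℕ) < j then f i else 0) + f ⟨j, by omega⟩ := by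
      intro f
      have e1 : ∀ i : Fin k, (if (i : ℕ) < j + 1 then f i else 0) =
          (if (i : ℕ) < j then f i else 0) + (if i = ⟨j, by omega⟩ then f i else 0) := by
        intro i
        by_cases h2 : (i : ℕ) < j
        · rw [if_pos h2, if_pos (by omega), if_neg, add_zero]
          intro h3
          rw [h3] at h2
          simp at h2
        · by_cases h3 : i = ⟨j, by omega⟩
          · rw [if_pos h3, if_neg h2, zero_add, if_pos]
            rw [h3]; simp
          · rw [if_neg h3, if_neg h2, if_neg, add_zero]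
            intro h4
            exact h3 (Fin.ext (by simp; omega))
      rw [Finset.sum_congr rfl fun i _ => e1 i, Finset.sum_add_distrib]
      simp
    rw [e, h1]
    funext c
    have h5 := h j hj c
    simp only [Pi.add_apply, dif_pos h5]
    rw [abs_le] at h5
    rw [Int.toNat_of_nonneg (by linarith [h5.1])]
    ring

/-! ### the events -/

/-- the cube as a finite set -/
noncomputable def CF (a : V d) (R : ℕ) : Finset (V d) :=
  Fintype.piFinset fun c => Finset.Ico (a c) (a c + R)

lemma mem_CF {a x : V d} {R : ℕ} : x ∈ CF a R ↔ x ∈ Cube a R := by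
  unfold CF Cube
  rw [Fintype.mem_piFinset]
  simp [Finset.mem_Ico]

open Classical in
/-- vertex sets of the paths in the cube -/
noncomputable def PF (a : V d) (R : ℕ) : Finset (Finset (V d)) :=
  (CF a R).powerset.filter fun f => ∃ l, IsP l ∧ l.toFinset = f

open Classical in
lemma mem_PF {a : V d} {R : ℕ} {l : List (V d)} (hl : IsP l) (hc : ∀ z ∈ l, z ∈ Cube a R) :
    l.toFinset ∈ PF a R := by
  unfold PF
  rw [Finset.mem_filter, Finset.mem_powerset]
  refine ⟨fun z hz => mem_CF.2 (hc z (List.mem_toFinset.1 hz)), l, hl, rfl⟩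

lemma PF_Big {a : V d} {R : ℕ} {f : Finset (V d)} (hf : f ∈ PF a R) {w : V d → ℝ} {c : ℝ}
    (hc : c ≤ ∑ x ∈ f, w x) : Big w a R c := by
  classical
  unfold PF at hf
  obtain ⟨h1, l, hl, rfl⟩ := Finset.mem_filter.1 hf
  refine ⟨l, hl, fun z hz => ?_, ?_⟩
  · exact mem_CF.1 (Finset.mem_powerset.1 h1 (List.mem_toFinset.2 hz))
  · rw [List.sum_toFinset _ hl.2] at hc
    exact hc

/-- the event for a coarse walk and a set of times -/
def EV (R : ℕ) (c : ℝ) {k : ℕ} (s : Fin k → Fin d → Fin 3) (J : Finset (Fin k)) :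
    Set (V d → ℝ) :=
  {w | ∃ f : Fin k → Finset (V d),
    (∀ j, f j ∈ (if j ∈ J then PF (fun c => (R : ℤ) * (zz s j c - 1)) (3 * R) else {∅})) ∧
    (∀ j j', j ≠ j' → Disjoint (f j) (f j')) ∧
    ∀ j, (if j ∈ J then c else 0) ≤ ∑ x ∈ f j, w x}

lemma law_EV (hBK : S_BK) (ν : Measure ℝ) [IsProbabilityMeasure ν] (R : ℕ) (c : ℝ) {k : ℕ}
    (s : Fin k → Fin d → Fin 3) (J : Finset (Fin k)) (D : ℝ≥0∞)
    (hD : law ν d {w | Big w 0 (3 * R) c} ≤ D) : law ν d (EV R c s J) ≤ D ^ J.card := by
  have _ : IsProbabilityMeasure (law ν d) := by unfold law; infer_instance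
  refine (hBK d ν k (fun j => if j ∈ J then PF (fun c => (R : ℤ) * (zz s j c - 1)) (3 * R)
    else {∅}) (fun j => if j ∈ J then c else 0)).trans ?_
  calc _ ≤ ∏ j : Fin k, (if j ∈ J then D else 1) := by
        refine Finset.prod_le_prod' fun j _ => ?_
        by_cases hj : j ∈ J
        · simp only [if_pos hj]
          refine (measure_mono ?_).trans ((law_Big ν (fun c => (R : ℤ) * (zz s j c - 1)) (3 * R)
            c).trans hD)
          rintro w ⟨f, hf, hw⟩
          exact PF_Big hf hw
        · simp only [if_neg hj]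
          exact prob_le_one
    _ = D ^ J.card := by
        rw [Finset.prod_ite_mem, Finset.univ_inter, Finset.prod_const]

lemma Lo_EV {R : ℕ} (hR : 1 ≤ R) {T ε : ℝ} (hT : 0 ≤ T) (hε : 0 < ε) {m : ℕ}
    (hm : 4 * (T + 1) / ε ≤ m) {n : ℕ} (hn : R ≤ n) {k : ℕ} (hk1 : n ≤ k * R)
    (hk2 : k * R < n + R) {w : V d → ℝ} (hw : ∀ x, w x ≤ T) (h : Lo w n (ε * n)) :
    ∃ (s : Fin k → Fin d → Fin 3) (J : Finset (Fin k)), k ≤ m * J.card ∧
      w ∈ EV R (ε / 4 * R) s J := by
  classical
  obtain ⟨l, hl, hP, hwt⟩ := h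
  obtain ⟨s, hs⟩ := zz_exists (k := k) (Z R l) (Z_zero R l) (fun j hj c => by
    refine Z_step hR hP ?_ c
    have : (j + 2) * R ≤ k * R := Nat.mul_le_mul_right _ (by omega)
    have e : (j + 2) * R = (j + 1) * R + R := by ring
    omega)
  set J : Finset (Fin k) := univ.filter fun j => ε / 4 * R ≤ wt w (ch R l j) with hJ
  have hR0 : (0 : ℝ) < R := by exact_mod_cast hR
  refine ⟨s, J, ?_, ?_⟩
  · -- many heavy chunks
    have h1 : ε * n ≤ ∑ j : Fin k, wt w (ch R l j) := by
      rw [Finset.sum_range (fun j => wt w (ch R l j)) |>.symm, wt_ch w R k l (by omega)]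
      exact hwt
    have h2 : ∑ j : Fin k, wt w (ch R l j) ≤
        ∑ j : Fin k, ((if j ∈ J then (R : ℝ) * (T + 1) else 0) + ε / 4 * R) := by
      refine Finset.sum_le_sum fun j _ => ?_
      by_cases hj : j ∈ J
      · rw [if_pos hj]
        have h3 := wt_le hT hw (ch R l j) (ch_length R l j)
        have h4 : 0 ≤ ε / 4 * R := by positivity
        nlinarith
      · rw [if_neg hj, zero_add]
        rw [hJ, Finset.mem_filter, not_and] at hj
        exact (not_le.1 (hj (mem_univ j))).le
    have h3 : ∑ j : Fin k, ((if j ∈ J then (R : ℝ) * (T + 1) else 0) + ε / 4 * R) =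
        J.card * (R * (T + 1)) + k * (ε / 4 * R) := by
      rw [Finset.sum_add_distrib, Finset.sum_ite_mem, Finset.univ_inter, Finset.sum_const,
        Finset.sum_const, Finset.card_univ, Fintype.card_fin, nsmul_eq_mul, nsmul_eq_mul]
    have h4 : (k : ℝ) * R ≤ 2 * n := by
      have : k * R ≤ 2 * n := by omega
      exact_mod_cast this
    have h5 : (k : ℝ) * (ε * R) ≤ 4 * (T + 1) * J.card * R := by
      have h6 : ε * n ≤ J.card * (R * (T + 1)) + k * (ε / 4 * R) := h1.trans (h2.trans_eq h3)
      have h7 : (k : ℝ) * (ε / 4 * R) ≤ ε * n / 2 := by nlinarith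
      nlinarith
    have h6 : (k : ℝ) * ε ≤ 4 * (T + 1) * J.card := by
      have : ((k : ℝ) * ε) * R ≤ (4 * (T + 1) * J.card) * R := by linarith
      exact le_of_mul_le_mul_right this hR0
    have h7 : (k : ℝ) ≤ 4 * (T + 1) / ε * J.card := by
      rw [div_mul_eq_mul_div, le_div_iff₀ hε]
      exact h6
    have h8 : (k : ℝ) ≤ (m * J.card : ℕ) := by
      push_cast
      exact h7.trans (mul_le_mul_of_nonneg_right hm (Nat.cast_nonneg _))
    exact_mod_cast h8
  · refine ⟨fun j => if j ∈ J then (ch R l j).toFinset else ∅, fun j => ?_, fun j j' hjj => ?_,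
      fun j => ?_⟩
    · by_cases hj : j ∈ J
      · simp only [if_pos hj]
        refine mem_PF (IsP_ch hP j) fun z hz => ?_
        rw [hs j j.2]
        exact ch_cube hR hP hz
      · simp [if_neg hj]
    · by_cases hj : j ∈ J
      · by_cases hj' : j' ∈ J
        · simp only [if_pos hj, if_pos hj']
          rw [Finset.disjoint_left]
          intro x hx hx'
          have hnd : l.Nodup := (List.nodup_cons.1 hP.2).2
          exact ch_disj hnd (fun e => hjj (Fin.ext e)) (List.mem_toFinset.1 hx)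
            (List.mem_toFinset.1 hx')
        · simp [if_neg hj']
      · simp [if_neg hj]
    · by_cases hj : j ∈ J
      · simp only [if_pos hj]
        rw [List.sum_toFinset _ (IsP_ch hP j).2]
        exact (Finset.mem_filter.1 hj).2
      · simp [if_neg hj]

theorem main (hBK : S_BK) : S_U3 := by
  intro d ν _ T hT hν hyp ε hε
  have _ : IsProbabilityMeasure (law ν d) := by unfold law; infer_instance
  obtain ⟨m, hm⟩ := exists_nat_ge (4 * (T + 1) / ε)
  set β : ℝ := 1 / (4 * 3 ^ d) with hβ
  have hβ0 : 0 < β := by positivity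
  have hβ1 : β ≤ 1 := by
    rw [hβ, div_le_one (by positivity)]
    have : (1 : ℝ) ≤ 3 ^ d := one_le_pow₀ (by norm_num)
    linarith
  obtain ⟨R, hR, hD⟩ := hyp (β ^ m) (ε / 4) (by positivity) (by positivity) 1
  have hR0 : (0 : ℝ) < R := by exact_mod_cast hR
  -- almost surely bounded
  have hae : ∀ᵐ w ∂law ν d, ∀ x, w x ≤ T := by
    rw [ae_all_iff]
    intro x
    have h1 : ∀ᵐ y ∂ν, y ≤ T := by
      rw [ae_iff]
      have : {y : ℝ | ¬ y ≤ T} = Set.Ioi T := by ext y; simp
      rw [this]; exact hν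
    exact (measurePreserving_eval_infinitePi (fun _ : V d => ν) x).quasiMeasurePreserving.ae h1
  -- the bound
  have key : ∀ n, R ≤ n → ∀ k, n ≤ k * R → k * R < n + R →
      law ν d {w | Lo w n (ε * n)} ≤ ENNReal.ofReal ((1 / 2) ^ k) := by
    intro n hn k hk1 hk2
    have h1 : {w | Lo w n (ε * n)} ≤ᵐ[law ν d]
        (⋃ p ∈ (univ : Finset ((Fin k → Fin d → Fin 3) × Finset (Fin k))).filter
          (fun p => k ≤ m * p.2.card), EV R (ε / 4 * R) p.1 p.2 : Set (V d → ℝ)) := by
      filter_upwards [hae] with w hw hLo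
      obtain ⟨s, J, hJ, hE⟩ := Lo_EV hR hT hε hm hn hk1 hk2 hw hLo
      exact Set.mem_biUnion (x := (s, J)) (by simpa using hJ) hE
    refine (measure_mono_ae h1).trans ((measure_biUnion_finset_le _ _).trans ?_)
    calc _ ≤ ∑ p ∈ (univ : Finset ((Fin k → Fin d → Fin 3) × Finset (Fin k))).filter
          (fun p => k ≤ m * p.2.card), ENNReal.ofReal (β ^ k) := by
          refine Finset.sum_le_sum fun p hp => ?_
          have hp' := (Finset.mem_filter.1 hp).2
          refine (law_EV hBK ν R (ε / 4 * R) p.1 p.2 _ hD).trans ?_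
          rw [← ENNReal.ofReal_pow (by positivity)]
          apply ENNReal.ofReal_le_ofReal
          rw [← pow_mul]
          exact pow_le_pow_of_le_one hβ0.le hβ1 hp'
      _ ≤ ∑ p : (Fin k → Fin d → Fin 3) × Finset (Fin k), ENNReal.ofReal (β ^ k) :=
          Finset.sum_le_sum_of_subset (Finset.filter_subset _ _)
      _ = ENNReal.ofReal ((((3 : ℝ) ^ d) ^ k * 2 ^ k) * β ^ k) := by
          rw [Finset.sum_const, Finset.card_univ, Fintype.card_prod, Fintype.card_finset,
            Fintype.card_pi_const, Fintype.card_pi_const, Fintype.card_fin, nsmul_eq_mul,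
            ENNReal.ofReal_mul (by positivity)]
          congr 1
          rw [← ENNReal.ofReal_natCast]
          congr 1
          push_cast
          simp
      _ = _ := by
          congr 1
          rw [← mul_pow, ← mul_pow]
          congr 1
          rw [hβ]
          field_simp
          norm_num
  -- summation
  set r : ℝ := (1 / 2 : ℝ) ^ ((R : ℝ)⁻¹) with hr
  have hr0 : 0 < r := by rw [hr]; positivity
  have hr1 : r < 1 := Real.rpow_lt_one (by norm_num) (by norm_num) (by positivity)
  have hrR : r ^ R = 1 / 2 := Real.rpow_inv_natCast_pow (by norm_num) (by omega)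
  have hbd : ∀ n, R ≤ n → law ν d {w | Lo w n (ε * n)} ≤ ENNReal.ofReal (r ^ n) := by
    intro n hn
    set k := (n + R - 1) / R with hk
    have h1 := Nat.div_add_mod (n + R - 1) R
    have h2 := Nat.mod_lt (n + R - 1) (show 0 < R by omega)
    rw [← hk] at h1
    have e : R * k = k * R := mul_comm _ _
    have hk1 : n ≤ k * R := by omega
    have hk2 : k * R < n + R := by omega
    refine (key n hn k hk1 hk2).trans (ENNReal.ofReal_le_ofReal ?_)
    rw [← hrR, ← pow_mul]
    exact pow_le_pow_of_le_one hr0.le hr1.le (by rw [e]; exact hk1)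
  have hBC := ae_eventually_notMem (μ := law ν d)
    (s := fun n => if R ≤ n then {w | Lo w n (ε * n)} else ∅) (by
      have h1 : ∀ n : ℕ, law ν d (if R ≤ n then {w | Lo w n (ε * n)} else ∅) ≤
          ENNReal.ofReal (r ^ n) := by
        intro n
        by_cases hn : R ≤ n
        · rw [if_pos hn]; exact hbd n hn
        · rw [if_neg hn, measure_empty]; exact zero_le
      refine ne_top_of_le_ne_top ?_ (ENNReal.tsum_le_tsum h1)
      rw [← ENNReal.ofReal_tsum_of_nonneg (fun n => by positivity)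
        (summable_geometric_of_lt_one hr0.le hr1)]
      exact ENNReal.ofReal_ne_top)
  filter_upwards [hBC] with w hw
  filter_upwards [hw, eventually_ge_atTop R] with n hn hRn
  rw [if_pos hRn] at hn
  exact hn

end Pool.Agent.W978.GP.U3
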